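import Mathlib

/-!
# Achievement sets are regularly closed or nowhere dense

For an absolutely summable sequence `v` in a Banach space (in particular in the plane) the set of
all subsums is either regularly closed or nowhere dense.
-/

namespace Pool.Agent.Results.MP_69f3e4_an.RegularlyClosed

open Set Filter Topology

/-- The achievement set (set of all subsums) of a sequence `v`:
all sums `∑ εₙ vₙ` with `εₙ ∈ {0,1}`. -/
def achievementSet {E : Type*} [NormedAddCommGroup E] (v : ℕ → E) : Set E :=
  Set.range (fun ε : ℕ → Bool => ∑' n, if ε n then v n else 0)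

section

variable {E : Type*} [NormedAddCommGroup E] [CompleteSpace E]

theorem summable_sub {v : ℕ → E} (hv : Summable fun n => ‖v n‖) (ε : ℕ → Bool) :
    Summable fun n => if ε n then v n else 0 := by
  refine Summable.of_norm_bounded hv ?_
  intro n
  by_cases h : ε n <;> simp [h]

theorem isCompact_achievementSet {v : ℕ → E} (hv : Summable fun n => ‖v n‖) :
    IsCompact (achievementSet v) := by
  refine isCompact_range ?_
  refine continuous_tsum (u := fun n => ‖v n‖) ?_ hv ?_
  · intro n
    have : Continuous fun b : Bool => if b then v n else 0 := continuous_of_discreteTopology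
    exact this.comp (continuous_apply n)
  · intro n ε
    by_cases h : ε n <;> simp [h]

theorem achievementSet_eq_union {v : ℕ → E} (hv : Summable fun n => ‖v n‖) :
    achievementSet v = achievementSet (fun n => v (n + 1)) ∪
      (fun x => v 0 + x) '' achievementSet (fun n => v (n + 1)) := by
  ext x
  constructor
  · rintro ⟨ε, rfl⟩
    simp only
    rw [(summable_sub hv ε).tsum_eq_zero_add]
    by_cases h : ε 0
    · right
      refine ⟨_, ⟨fun n => ε (n + 1), rfl⟩, ?_⟩
      simp [h]
    · left
      refine ⟨fun n => ε (n + 1), ?_⟩
      simp [h]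
  · rintro (⟨ε, rfl⟩ | ⟨_, ⟨ε, rfl⟩, rfl⟩)
    · refine ⟨fun n => Nat.casesOn n false ε, ?_⟩
      simp only
      rw [(summable_sub hv _).tsum_eq_zero_add]
      simp
    · refine ⟨fun n => Nat.casesOn n true ε, ?_⟩
      simp only
      rw [(summable_sub hv _).tsum_eq_zero_add]
      simp

theorem interior_tail_nonempty {v : ℕ → E} (hv : Summable fun n => ‖v n‖)
    (h : (interior (achievementSet v)).Nonempty) :
    (interior (achievementSet (fun n => v (n + 1)))).Nonempty := by
  have hv1 : Summable fun n => ‖v (n + 1)‖ := (summable_nat_add_iff 1).2 hv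
  by_contra hne
  rw [not_nonempty_iff_eq_empty] at hne
  have hcl : IsClosed (achievementSet (fun n => v (n + 1))) :=
    (isCompact_achievementSet hv1).isClosed
  have h2 : interior ((fun x => v 0 + x) '' achievementSet (fun n => v (n + 1))) = ∅ := by
    have := (Homeomorph.addLeft (v 0)).image_interior (achievementSet (fun n => v (n + 1)))
    have h3 : interior ((Homeomorph.addLeft (v 0)) '' achievementSet (fun n => v (n + 1))) = ∅ := by
      rw [← this, hne, image_empty]
    exact h3
  rw [achievementSet_eq_union hv, interior_union_isClosed_of_interior_empty hcl h2, hne] at h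
  exact not_nonempty_empty h

theorem interior_tails_nonempty {v : ℕ → E} (hv : Summable fun n => ‖v n‖)
    (h : (interior (achievementSet v)).Nonempty) (N : ℕ) :
    (interior (achievementSet (fun n => v (n + N)))).Nonempty := by
  induction N with
  | zero => simpa using h
  | succ N ih =>
    have hN : Summable fun n => ‖v (n + N)‖ := (summable_nat_add_iff N).2 hv
    have := interior_tail_nonempty hN ih
    have e : (fun n => v (n + 1 + N)) = fun n => v (n + (N + 1)) := by
      funext n; congr 1; ring
    rwa [e] at this

theorem add_tail_mem {v : ℕ → E} (hv : Summable fun n => ‖v n‖) (ε : ℕ → Bool) (N : ℕ)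
    {y : E} (hy : y ∈ achievementSet (fun n => v (n + N))) :
    (∑ n ∈ Finset.range N, if ε n then v n else 0) + y ∈ achievementSet v := by
  obtain ⟨δ, rfl⟩ := hy
  refine ⟨fun n => if n < N then ε n else δ (n - N), ?_⟩
  simp only
  rw [← (summable_sub hv _).sum_add_tsum_nat_add N]
  congr 1
  · refine Finset.sum_congr rfl ?_
    intro n hn
    simp [Finset.mem_range.1 hn]
  · refine tsum_congr ?_
    intro n
    simp

omit [CompleteSpace E] in
theorem norm_le_of_mem_tail {v : ℕ → E} (hv : Summable fun n => ‖v n‖)
    {y : E} (hy : y ∈ achievementSet v) : ‖y‖ ≤ ∑' n, ‖v n‖ := by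
  obtain ⟨δ, rfl⟩ := hy
  refine tsum_of_norm_bounded hv.hasSum ?_
  intro n
  by_cases h : δ n <;> simp [h]

end

/-- **Every achievement set is regularly closed or nowhere dense.**  If `v` is an absolutely
summable sequence in a complete normed group `E` (for instance the Euclidean plane), then its
achievement set either equals the closure of its interior, or its closure has empty interior. -/
theorem result {E : Type*} [NormedAddCommGroup E] [CompleteSpace E]
    (v : ℕ → E) (hv : Summable fun n => ‖v n‖) :
    achievementSet v = closure (interior (achievementSet v)) ∨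
      IsNowhereDense (achievementSet v) := by
  have hcl : IsClosed (achievementSet v) := (isCompact_achievementSet hv).isClosed
  rcases (interior (achievementSet v)).eq_empty_or_nonempty with h | h
  · right
    rw [IsNowhereDense, hcl.closure_eq, h]
  left
  refine Subset.antisymm ?_ (closure_minimal interior_subset hcl)
  rintro x ⟨ε, rfl⟩
  rw [Metric.mem_closure_iff]
  intro r hr
  -- tail of the norms tends to zero
  have ht : Tendsto (fun N => ∑' n, ‖v (n + N)‖) atTop (𝓝 0) :=
    tendsto_sum_nat_add fun n => ‖v n‖
  obtain ⟨N, hN⟩ : ∃ N, ∑' n, ‖v (n + N)‖ < r / 2 :=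
    (ht.eventually (gt_mem_nhds (half_pos hr))).exists
  have hvN : Summable fun n => ‖v (n + N)‖ := (summable_nat_add_iff N).2 hv
  obtain ⟨p, hp⟩ := interior_tails_nonempty hv h N
  set f : E := ∑ n ∈ Finset.range N, if ε n then v n else 0 with hf
  refine ⟨f + p, ?_, ?_⟩
  · -- `f + p` is an interior point
    have h1 : (fun y => f + y) '' (achievementSet fun n => v (n + N)) ⊆ achievementSet v := by
      rintro _ ⟨y, hy, rfl⟩
      exact add_tail_mem hv ε N hy
    have h2 : f + p ∈ interior ((fun y => f + y) '' (achievementSet fun n => v (n + N))) := by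
      have := (Homeomorph.addLeft f).image_interior (achievementSet (fun n => v (n + N)))
      have h3 : f + p ∈ (Homeomorph.addLeft f) '' interior (achievementSet fun n => v (n + N)) :=
        ⟨p, hp, rfl⟩
      rw [this] at h3
      exact h3
    exact interior_mono h1 h2
  · -- distance estimate
    have hx : (∑' n, if ε n then v n else 0) = f + ∑' n, (if ε (n + N) then v (n + N) else 0) :=
      ((summable_sub hv ε).sum_add_tsum_nat_add N).symm
    simp only
    rw [hx, dist_add_left, dist_eq_norm]
    have a1 : ‖∑' n, (if ε (n + N) then v (n + N) else 0)‖ ≤ ∑' n, ‖v (n + N)‖ :=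
      norm_le_of_mem_tail hvN ⟨fun n => ε (n + N), rfl⟩
    have a2 : ‖p‖ ≤ ∑' n, ‖v (n + N)‖ := norm_le_of_mem_tail hvN (interior_subset hp)
    calc ‖∑' n, (if ε (n + N) then v (n + N) else 0) - p‖
        ≤ ‖∑' n, (if ε (n + N) then v (n + N) else 0)‖ + ‖p‖ := norm_sub_le _ _
      _ < r := by linarith

end Pool.Agent.Results.MP_69f3e4_an.RegularlyClosed
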